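import Pool.Agent.Helper24.AB.Defs2
import Pool.Agent.Helper24.AB.AN.Goals
import Pool.Agent.Helper24.AB.NT.Goals
import Pool.Agent.Helper24.AB.PP.Goals
import Pool.Agent.Helper24.AB.PHI.Goals
import Pool.Agent.Helper89.AB.ID
import Pool.Agent.Helper27.AB.BAS
import Pool.Agent.Helper75.AB.DOM
import Pool.Agent.Helper55.AB.DOMB
import Pool.Agent.Helper56.AB.EQD
import Pool.Agent.Helper31.AB.SOL
import Pool.Agent.Helper23.AB.WB
import Pool.Agent.Helper37.AB.WU
import Pool.Agent.Helper87.AB.URAP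
import Pool.Agent.Helper11.AB.WEA
import Pool.Agent.Helper49.AB.STEP
import Pool.Agent.Helper58.AB.IND
import Pool.Agent.Helper59.AB.MVT
import Pool.Agent.Helper70.AB.WEYL
import Pool.Agent.Helper72.AB.ORT
import Pool.Agent.Helper93.AB.FAT
import Pool.Agent.Helper62.AB.ANM
import Pool.Agent.Helper34.AB.NUM
import Pool.Agent.Helper90.AB.REC
import Pool.Agent.Helper9.AB.CNT
import Pool.Agent.Helper32.AB.MEAS
import Pool.Agent.Helper64.AB.NRX
import Pool.Agent.Helper26.AB.VP
import Pool.Agent.Helper7.AB.PROFx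
import Pool.Agent.Helper57.AB.LOGR
import Pool.Agent.Helper57.AB.LOGC
import Pool.Agent.Helper57.AB.LOGP
import Pool.Agent.Helper70.AB.LR
import Pool.Agent.Helper72.AB.PHOLE
import Pool.Agent.Helper35.AB.SERIES
import Pool.Agent.Helper35.AB.CAP
import Pool.Agent.Helper26.AB.BD
import Pool.Agent.Helper23.AB.SEP
import Pool.Agent.Helper23.AB.POTF
import Pool.Agent.Helper16.AB.QF
import Pool.Agent.Helper39.AB.TEX
import Pool.Agent.Helper57.AB.FB
import Pool.Agent.Helper72.AB.VID
import Pool.Agent.Helper57.AB.VLB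
import Pool.Agent.Helper80.AB.PA
import Pool.Agent.Helper74.AB.VAP
import Pool.Agent.Helper26.AB.PH1
import Pool.Agent.Helper80.AB.PH2
import Pool.Agent.Helper10.AB.EMB
import Pool.Agent.Helper15.AB.FinE
import Pool.Agent.Helper95.AB.Main

/-! # Project AB: assembly of all modules -/

noncomputable section

namespace Pool.Agent.Helper24.AB.Fin

open Pool.Agent.Helper24.AB

/-! ### modules AN -/

theorem anm : S_ANM := by
  have hID : S_ID := Pool.Agent.Helper89.AB.id
  have hBAS : S_BAS := Pool.Agent.Helper27.AB.bas hID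
  have hDOM : S_DOM := Pool.Agent.Helper75.AB.dom
  have hDOMB : S_DOMB := Pool.Agent.Helper55.AB.domb hBAS
  have hEQD : S_EQD := Pool.Agent.Helper56.AB.eqd
  have hSOL : S_SOL := Pool.Agent.Helper31.AB.sol hDOM hDOMB
  have hWB : S_WB := Pool.Agent.Helper23.AB.wb hDOM hDOMB hEQD
  have hWU : S_WU := Pool.Agent.Helper37.AB.wu hWB
  have hURAP : S_URAP := Pool.Agent.Helper87.AB.urap
  have hWEA : S_WEA := Pool.Agent.Helper11.AB.wea hWU
  have hSTEP : S_STEP := Pool.Agent.Helper49.AB.STEP.step hDOM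
  have hIND : S_IND := Pool.Agent.Helper58.AB.ind hSTEP hURAP
  exact Pool.Agent.Helper62.AB.anm hSOL hWEA hIND Pool.Agent.Helper59.AB.mvt
    Pool.Agent.Helper70.AB.weyl Pool.Agent.Helper72.AB.ort Pool.Agent.Helper24.AB.fat hURAP

/-! ### module NT -/

theorem num : S_NUM := Pool.Agent.Helper34.AB.num

theorem nrx : S_NRX :=
  Pool.Agent.Helper64.AB.nrx num
    (Pool.Agent.Helper32.AB.meas num Pool.Agent.Helper90.AB.rec Pool.Agent.Helper9.AB.cnt)

/-! ### module PP -/

theorem prof : S_PROF := Pool.Agent.Helper7.AB.profx Pool.Agent.Helper26.AB.vp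

theorem pot : S_POT := by
  have hBD : S_BD := Pool.Agent.Helper26.AB.bd
  have hLR : S_LR := Pool.Agent.Helper70.AB.lr Pool.Agent.Helper57.AB.logr
  exact Pool.Agent.Helper23.AB.potf hBD (Pool.Agent.Helper23.AB.sep hBD)
    (Pool.Agent.Helper72.AB.PHole.phole hLR)
    (Pool.Agent.Helper35.AB.Cap.cap hBD (Pool.Agent.Helper57.AB.logp Pool.Agent.Helper57.AB.logc))
    Pool.Agent.Helper35.AB.series nrx

/-! ### module PHI -/

theorem phi1 : S_PHI1 := by
  have hQF : S_QF := Pool.Agent.Helper16.AB.qf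
  have hTEX : S_TEX := Pool.Agent.Helper39.AB.tex
  have hFB : S_FB := Pool.Agent.Helper57.AB.fb
  have hVID : S_VID := Pool.Agent.Helper72.AB.Vid.vid hQF hTEX
  exact Pool.Agent.Helper26.AB.ph1 num hQF hFB
    (Pool.Agent.Helper57.AB.vlb num hQF hTEX hVID)
    (Pool.Agent.Helper80.AB.pa Pool.Agent.Helper15.AB.lh0 hFB)
    (Pool.Agent.Helper74.AB.vap hQF hTEX hFB hVID)

theorem phi2 : S_PHI2 :=
  Pool.Agent.Helper80.AB.ph2 Pool.Agent.Helper16.AB.qf Pool.Agent.Helper39.AB.tex phi1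

theorem wtf : S_WTF := Pool.Agent.Helper95.AB.wtf phi1 phi2

/-- The answer to Q1, given the module `BERG`. -/
theorem final_of_berg (hB : S_BERG) : S_FINAL :=
  final_of Pool.Agent.Helper10.AB.emb prof pot Pool.Agent.Helper15.AB.geo hB
    (fun _ => Pool.Agent.Helper15.AB.tr1_geo) (fun _ => Pool.Agent.Helper15.AB.tr2_geo)
    (fun _ => Pool.Agent.Helper15.AB.df_geo)

end Pool.Agent.Helper24.AB.Fin
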