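import Pool.Agent.Helper27.AB.PH3.Asm
import Pool.Agent.Helper37.AB.POLA3
import Pool.Agent.Helper5.AB.POLB3
import Pool.Agent.Helper13.AB.POLL3
import Pool.Agent.Helper20.AB.EQV3
import Pool.Agent.Helper3.AB.DTP3
import Pool.Agent.Helper50.AB.GWI3
import Pool.Agent.Helper55.AB.POLF3
import Pool.Agent.Helper56.AB.SMP3
import Pool.Agent.Helper58.AB.CMW3
import Pool.Agent.Helper62.AB.POLP3
import Pool.Agent.Helper64.AB.BALL3
import Pool.Agent.Helper68.AB.LAM
import Pool.Agent.Helper16.AB.QF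
import Pool.Agent.Helper39.AB.TEX
import Pool.Agent.Helper58.AB.ATL

/-! # Project AB: assembly of module PH3 -/

noncomputable section

namespace Pool.Agent.Helper24.AB.Fin

open Pool.Agent.Helper24.AB Pool.Agent.Helper27.AB Pool.Agent.Helper15.AB

theorem phi3_pola (hA : S_POLA) : S_PHI3 := by
  have hB : S_POLB := Pool.Agent.Helper5.AB.polb hA
  have hP : S_POLP := Pool.Agent.Helper62.AB.POLP3.polp
  have hF : S_POLF := Pool.Agent.Helper55.AB.polf hA hB Pool.Agent.Helper58.AB.atl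
  have hLam : S_LAM := Pool.Agent.Helper68.AB.lam
  have hT : S_TEX := Pool.Agent.Helper39.AB.tex
  have hQ : S_QF := Pool.Agent.Helper16.AB.qf
  have hL : S_POLL := Pool.Agent.Helper13.AB.poll hA hF hLam hT
  have hD : S_DTP := Pool.Agent.Helper3.AB.dtp hA hB hP hF hL hT hLam
  exact phi3_of hD (Pool.Agent.Helper56.AB.smp hT hQ) Pool.Agent.Helper58.AB.CMW3.cmw
    Pool.Agent.Helper20.AB.eqv3 (Pool.Agent.Helper50.AB.gwi Pool.Agent.Helper58.AB.atl)
    Pool.Agent.Helper64.AB.BALL3.ball3_thm hQ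

end Pool.Agent.Helper24.AB.Fin
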