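import Pool.Agent.Helper24.AB.Stmt

/-! # Project AB (MP_1ef41b_an): common definitions (see PAPER.md). -/

open MeasureTheory Set Filter Topology
open scoped ContDiff

noncomputable section

namespace Pool.Agent.Helper24.AB

/-! ## Numbers -/

/-- `φ = (1+√5)/2` -/
def ph : ℝ := (1 + Real.sqrt 5) / 2
/-- `φ' = (1-√5)/2` -/
def ph' : ℝ := (1 - Real.sqrt 5) / 2
/-- `λ = (3+√5)/2 = φ²` -/
def lam : ℝ := (3 + Real.sqrt 5) / 2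
/-- `κ = log λ / (2π)` -/
def kap : ℝ := Real.log lam / (2 * Real.pi)

/-- `α(m,n) = mφ + n` -/
def alp (J : Fin 3 → ℤ) : ℝ := J 0 * ph + J 1
/-- `α'(m,n) = mφ' + n` -/
def alp' (J : Fin 3 → ℤ) : ℝ := J 0 * ph' + J 1

/-- The action `Q^T` on the frequencies: `(m,n,l) ↦ (2m+n, m+n, l)` -/
def Jn (J : Fin 3 → ℤ) : Fin 3 → ℤ := ![2 * J 0 + J 1, J 0 + J 1, J 2]

/-- Distance of a real number to the nearest integer. -/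
def dZ (x : ℝ) : ℝ := |x - round x|

/-- Property (NR) of `ε`. -/
def NR (ε : ℝ) : Prop :=
  ∃ C : ℝ, ∀ m n : ℤ, (m ≠ 0 ∨ n ≠ 0) → ∀ K : ℕ,
    (K : ℝ) / 100 - C * Real.log (2 + |m * ph + n| + |m * ph' + n|) ≤
      (((Finset.range K).filter fun k => 1 / 10 ≤ dZ ((m * ph + n) * lam ^ k * ε)).card : ℝ)

/-! ## Functions of `w = σ + it ∈ ℂ` -/

section wcalc
variable {E : Type*} [NormedAddCommGroup E] [NormedSpace ℝ E]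
/-- `∂/∂σ` -/
def dS (f : ℂ → E) (w : ℂ) : E := fderiv ℝ f w 1
/-- `∂/∂t` -/
def dT (f : ℂ → E) (w : ℂ) : E := fderiv ℝ f w Complex.I
/-- the Laplacian -/
def lapC (f : ℂ → E) (w : ℂ) : E := dS (dS f) w + dT (dT f) w
end wcalc

/-- `∂/∂w = (∂_σ - i∂_t)/2` -/
def dz (f : ℂ → ℂ) (w : ℂ) : ℂ := (dS f w - Complex.I * dT f w) / 2
/-- `∂/∂w̄ = (∂_σ + i∂_t)/2` -/
def dzb (f : ℂ → ℂ) (w : ℂ) : ℂ := (dS f w + Complex.I * dT f w) / 2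

/-- The strip `|σ| < a`. -/
def strip (a : ℝ) : Set ℂ := {w | |w.re| < a}
/-- The cell `|σ| < a, 0 ≤ t < 2π`. -/
def cell (a : ℝ) : Set ℂ := {w | |w.re| < a ∧ 0 ≤ w.im ∧ w.im < 2 * Real.pi}

/-! ## The cover `ℂ⁴ ∋ (Z₀,Z₁,Z₂,w)` and the group `Γ` -/

abbrev V4 := Fin 4 → ℂ

/-- the generator `g : (Z,w) ↦ (QZ, w+2πi)` as a permutation -/
def gE : Equiv.Perm V4 where
  toFun P := ![2 * P 0 + P 1, P 0 + P 1, P 2, P 3 + 2 * Real.pi * Complex.I]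
  invFun P := ![P 0 - P 1, 2 * P 1 - P 0, P 2, P 3 - 2 * Real.pi * Complex.I]
  left_inv P := by
    funext i; fin_cases i <;> simp <;> ring
  right_inv P := by
    funext i; fin_cases i <;> simp <;> ring

/-- the translation by `2πik`, `k ∈ ℤ³` -/
def tE (k : Fin 3 → ℤ) (P : V4) : V4 :=
  ![P 0 + 2 * Real.pi * Complex.I * k 0, P 1 + 2 * Real.pi * Complex.I * k 1,
    P 2 + 2 * Real.pi * Complex.I * k 2, P 3]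

/-- `P' ∈ Γ P` -/
def GamRel (P P' : V4) : Prop := ∃ (j : ℤ) (k : Fin 3 → ℤ), P' = tE k ((gE ^ j) P)

/-- eigen-coordinates of `X = Re Z` -/
def xp (P : V4) : ℝ := ((P 0).re - ph' * (P 1).re) / Real.sqrt 5
def xm (P : V4) : ℝ := (ph * (P 1).re - (P 0).re) / Real.sqrt 5
def x0 (P : V4) : ℝ := (P 2).re

/-- the Γ-invariant neighbourhood `U_η` of the core `Re Z = 0, σ = 0` -/
def Unb (η : ℝ) : Set V4 :=
  {P | |Real.exp (-(kap * (P 3).im)) * xp P| < η ∧ |Real.exp (kap * (P 3).im) * xm P| < η ∧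
    |x0 P| < η ∧ |(P 3).re| < η}

/-- (EMB) an embedding of `U_η / Γ` in `ℂ⁴`. -/
structure IsEmb (η : ℝ) (Θ : V4 → V4) : Prop where
  holo : DifferentiableOn ℂ Θ (Unb η)
  inv_g : ∀ P ∈ Unb η, Θ (gE P) = Θ P
  inv_t : ∀ P ∈ Unb η, ∀ k, Θ (tE k P) = Θ P
  inj : ∀ P ∈ Unb η, ∀ P' ∈ Unb η, Θ P = Θ P' → GamRel P P'
  der : ∀ P ∈ Unb η, (fderiv ℂ Θ P).det ≠ 0

/-- (S_EMB), module EMB. -/
def S_EMB : Prop := ∃ η : ℝ, 0 < η ∧ ∃ Θ : V4 → V4, IsEmb η Θ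

/-! ## The potential `p` and the profile `s` -/

/-- The profile `s` (PROF, Section 1), `A = S*` is the scale, `ξ₀ = A`. -/
structure IsProfile (a A : ℝ) (s : ℝ → ℝ) : Prop where
  a_pos : 0 < a
  a_le : a ≤ 1 / 2
  A_pos : 0 < A
  smooth : ContDiffOn ℝ ∞ s (Ioo (-a) a)
  even : ∀ x, s (-x) = s x
  pos : ∀ x ∈ Ioo (-a) a, 0 < s x
  mid : ∀ x, |x| ≤ a / 2 → s x = 2 * A * Real.cos (kap * x) - A
  edge : ∀ x, 19 / 20 * a ≤ |x| → |x| < a → s x = 2 * A * Real.sqrt (a ^ 2 - x ^ 2) / a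
  le_edge : ∀ x ∈ Ioo (-a) a, s x ≤ 2 * A * Real.sqrt (a ^ 2 - x ^ 2) / a
  ge_mid : ∀ x, |x| ≤ 19 / 20 * a → A / 2 ≤ s x
  k1 : ∀ x ∈ Ioo (-a) a, deriv (deriv s) x + kap ^ 2 * s x + kap ^ 2 * A ≤ 0
  s' : ∀ x ∈ Ioo (-a) a, |deriv s x| ≤ 21 / 20 * s x * |x| / (a ^ 2 - x ^ 2)
  s'sign : ∀ x ∈ Ioo (-a) a, x * deriv s x ≤ 0

/-- The flux blocks of (p5): `B_j = [τ_j, τ_j+b_j]`, spacing `ρ_j`, half width `a₂' ≥ 19a/20` of the tiled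
rectangle (`≤ 39a/40`), flux `ε_j`.  The centres are `x = -a₂' + (i+1/2)ρ_j + i(τ_j + (i'+1/2)ρ_j)`. -/
structure BlockData where
  tau : ℕ → ℝ
  b : ℕ → ℝ
  rho : ℕ → ℝ
  a2 : ℕ → ℝ
  eps : ℕ → ℝ
  Ns : ℕ → ℕ
  Nt : ℕ → ℕ

/-- centre of the square number `(i,i')` of block `j` -/
def BlockData.ctr (B : BlockData) (j i i' : ℕ) : ℂ :=
  ⟨-B.a2 j + (i + 1 / 2) * B.rho j, B.tau j + (i' + 1 / 2) * B.rho j⟩

/-- (p4) -/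
def IsCapacity (a : ℝ) (p : ℂ → ℝ) : Prop :=
  ∃ (C c a1 : ℝ) (G : Set ℝ) (v : ℕ → ℂ → ℝ), 0 < c ∧ a1 < a / 2 ∧ MeasurableSet G ∧
    G ⊆ Ioo (-(a / 2)) (a / 2) ∧ ENNReal.ofReal c ≤ volume G ∧ ∀ n,
      ContDiff ℝ ∞ (v n) ∧ (∀ w, v n (w + 2 * Real.pi * Complex.I) = v n w) ∧
      (∀ w, 0 ≤ v n w ∧ v n w ≤ 1) ∧ (∀ w, a1 ≤ |w.re| → v n w = 0) ∧
      (∫ w in cell a, ‖fderiv ℝ (v n) w‖ ^ 2) ≤ C ∧
      (∀ w : ℂ, w.re ∈ G → 1 / 2 ≤ v n w) ∧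
      ∃ O : Set ℂ, IsOpen O ∧ (∀ w ∈ O, w ∈ strip (3 * a / 2) → lapC p w = 0) ∧
        volume {w ∈ cell a | v n w ≠ 0 ∧ w ∉ O} ≤ ENNReal.ofReal (1 / (n + 1))

/-- (p1)-(p5): the potential `p`. -/
structure IsPotential (a δ₀ ρ₀ : ℝ) (p : ℂ → ℝ) (B : BlockData) : Prop where
  smooth : ContDiffOn ℝ ∞ p (strip (3 * a / 2))
  p1 : ∀ w, p (w + 2 * Real.pi * Complex.I) = lam * p w
  p2 : ∀ w ∈ strip (3 * a / 2), 0 ≤ lapC p w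
  p3 : ∀ w ∈ strip (3 * a / 2), |p w| ≤ δ₀ * Real.exp (kap * w.im) ∧
    ‖fderiv ℝ p w‖ ≤ δ₀ * Real.exp (kap * w.im) ∧ lapC p w ≤ δ₀ * Real.exp (kap * w.im)
  p4 : IsCapacity a p
  tau_pos : ∀ j, 0 < B.tau j
  b_pos : ∀ j, 0 < B.b j
  tau_b : ∀ j, B.tau j + B.b j < 2 * Real.pi
  rho_pos : ∀ j, 0 < B.rho j
  rho_le : ∀ j, B.rho j ≤ ρ₀
  ratio : ∀ j, (2 : ℝ) ^ j ≤ B.b j / B.rho j
  a2_ge : ∀ j, 19 / 20 * a ≤ B.a2 j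
  a2_le : ∀ j, B.a2 j ≤ 39 / 40 * a
  tile_s : ∀ j, (B.Ns j : ℝ) * B.rho j = 2 * B.a2 j
  tile_t : ∀ j, (B.Nt j : ℝ) * B.rho j = B.b j
  eps_pos : ∀ j, 0 < B.eps j
  eps_NR : ∀ j, NR (B.eps j)
  off : ∀ j i i', i < B.Ns j → i' < B.Nt j → ∀ w, |(w - B.ctr j i i').re| ≤ B.rho j / 2 →
    |(w - B.ctr j i i').im| ≤ B.rho j / 2 → B.rho j / 4 ≤ ‖w - B.ctr j i i'‖ → lapC p w = 0
  flux : ∀ j i i', i < B.Ns j → i' < B.Nt j →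
    (∫ w in Metric.ball (B.ctr j i i') (B.rho j / 4), lapC p w) = 2 * Real.pi * B.eps j

/-! ## The domain in the cover -/

def ypf (p : ℂ → ℝ) (P : V4) : ℝ := Real.exp (-(kap * (P 3).im)) * (xp P + p (P 3))
def ymf (P : V4) : ℝ := Real.exp (kap * (P 3).im) * xm P

/-- `Ã = s²/(a²-σ²)` for `|σ|<19a/20` continued by `4A²/a²`. -/
def Atl (a A : ℝ) (s : ℝ → ℝ) (x : ℝ) : ℝ :=
  if |x| < 19 / 20 * a then s x ^ 2 / (a ^ 2 - x ^ 2) else 4 * A ^ 2 / a ^ 2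

/-- the defining function `r` of `Ω̃` -/
def rfun (a A : ℝ) (s : ℝ → ℝ) (p : ℂ → ℝ) (P : V4) : ℝ :=
  (ypf p P - A) ^ 2 / Atl a A s (P 3).re + (ymf P ^ 2 + x0 P ^ 2) / (4 * A ^ 2) -
    (a ^ 2 - (P 3).re ^ 2)

/-- `Ω̃` -/
def Omt (a A : ℝ) (s : ℝ → ℝ) (p : ℂ → ℝ) : Set V4 :=
  {P | |(P 3).re| < 3 * a / 2 ∧ rfun a A s p P < 0}

/-- fundamental domain of `Γ` in `Ω̃` -/
def Fund (a A : ℝ) (s : ℝ → ℝ) (p : ℂ → ℝ) : Set V4 :=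
  {P | P ∈ Omt a A s p ∧ ∀ i, 0 ≤ (P i).im ∧ (P i).im < 2 * Real.pi}

/-- `Γ`-invariance of a function on a `Γ`-invariant set -/
def GamInv {E : Type*} (U : Set V4) (f : V4 → E) : Prop :=
  ∀ P ∈ U, f (gE P) = f P ∧ ∀ k, f (tE k P) = f P

/-! ## The interfaces between the modules -/

/-- (S_PROF), module PROF. -/
def S_PROF : Prop := ∀ a A : ℝ, 0 < a → a ≤ 1 / 2 → 0 < A → ∃ s, IsProfile a A s

/-- (S_POT), module POT. -/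
def S_POT : Prop := ∀ a δ₀ ρ₀ : ℝ, 0 < a → a ≤ 1 / 2 → 0 < δ₀ → 0 < ρ₀ →
  ∃ (p : ℂ → ℝ) (B : BlockData), IsPotential a δ₀ ρ₀ p B

/-- (S_GEO), module GEO: the domain in the cover.  `δ₀ ≤ κ²A/4` suffices. -/
def S_GEO : Prop := ∀ (a A δ₀ ρ₀ : ℝ) (s : ℝ → ℝ) (p : ℂ → ℝ) (B : BlockData),
  IsProfile a A s → IsPotential a δ₀ ρ₀ p B → δ₀ ≤ kap ^ 2 * A / 4 →
    ContDiffOn ℝ ∞ (rfun a A s p) {P : V4 | |(P 3).re| < 3 * a / 2} ∧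
    (∀ P : V4, |(P 3).re| < 3 * a / 2 → rfun a A s p P = 0 → fderiv ℝ (rfun a A s p) P ≠ 0) ∧
    (∀ P : V4, |(P 3).re| < 3 * a / 2 → rfun a A s p P = 0 → ∀ ξ : V4,
      fderiv ℝ (rfun a A s p) P ξ = 0 → fderiv ℝ (rfun a A s p) P (Complex.I • ξ) = 0 →
        0 ≤ leviForm (rfun a A s p) P ξ) ∧
    IsConnected (Omt a A s p) ∧
    (∀ P : V4, rfun a A s p (gE P) = rfun a A s p P ∧ ∀ k, rfun a A s p (tE k P) = rfun a A s p P)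

/-- (S_BERG): the Bergman part in the cover. -/
def S_BERG : Prop := ∀ (a A : ℝ) (s : ℝ → ℝ), IsProfile a A s → ∃ δ₁ ρ₀ : ℝ, 0 < δ₁ ∧ 0 < ρ₀ ∧
  ∀ (δ₀ : ℝ) (p : ℂ → ℝ) (B : BlockData), δ₀ ≤ δ₁ → IsPotential a δ₀ ρ₀ p B →
    ∀ f : V4 → ℂ, ContDiffOn ℝ ∞ f (closure (Omt a A s p)) → GamInv (closure (Omt a A s p)) f →
      ∃ g : V4 → ℂ, ContDiffOn ℝ ∞ g (closure (Omt a A s p)) ∧
        GamInv (closure (Omt a A s p)) g ∧ DifferentiableOn ℂ g (Omt a A s p) ∧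
        ∀ h : V4 → ℂ, DifferentiableOn ℂ h (Omt a A s p) → GamInv (Omt a A s p) h →
          IntegrableOn (fun P => ‖h P‖ ^ 2) (Fund a A s p) →
            ∫ P in Fund a A s p, (f P - g P) * (starRingEnd ℂ) (h P) = 0

/-- (S_TR1): smooth bounded pseudoconvex. -/
def S_TR1 : Prop := ∀ (η a A δ₀ ρ₀ : ℝ) (Θ : V4 → V4) (s : ℝ → ℝ) (p : ℂ → ℝ) (B : BlockData),
  IsEmb η Θ → IsProfile a A s → IsPotential a δ₀ ρ₀ p B → δ₀ ≤ kap ^ 2 * A / 4 → a < η →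
    3 * A + δ₀ < η → δ₀ < A →
      closure (Omt a A s p) ⊆ Unb η ∧ IsSmoothBoundedPseudoconvexDomain (Θ '' Omt a A s p)

/-- (S_TR2): transfer of the Bergman projection. -/
def S_TR2 : Prop := S_BERG → ∀ (η a A : ℝ) (Θ : V4 → V4) (s : ℝ → ℝ),
  IsEmb η Θ → IsProfile a A s → ∃ δ₁ ρ₀ : ℝ, 0 < δ₁ ∧ 0 < ρ₀ ∧
  ∀ (δ₀ : ℝ) (p : ℂ → ℝ) (B : BlockData), δ₀ ≤ δ₁ → IsPotential a δ₀ ρ₀ p B → 
    closure (Omt a A s p) ⊆ Unb η → BergmanGloballyRegular (Θ '' Omt a A s p)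

/-- (S_DF), module DF. -/
def S_DF : Prop := ∀ (η a A δ₀ ρ₀ : ℝ) (Θ : V4 → V4) (s : ℝ → ℝ) (p : ℂ → ℝ) (B : BlockData),
  IsEmb η Θ → IsProfile a A s → IsPotential a δ₀ ρ₀ p B → δ₀ ≤ kap ^ 2 * A / 4 →
    closure (Omt a A s p) ⊆ Unb η → ¬ DF1 (Θ '' Omt a A s p)

/-- The final assembly. -/
theorem final_of (hE : S_EMB) (hP : S_PROF) (hPot : S_POT) (hG : S_GEO) (hB : S_BERG)
    (hT1 : S_GEO → S_TR1) (hT2 : S_GEO → S_TR2) (hD : S_GEO → S_DF) : S_FINAL := by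
  obtain ⟨η, hη, Θ, hΘ⟩ := hE
  set a : ℝ := min (1 / 2) (η / 2) with ha
  have ha0 : 0 < a := by positivity
  have ha1 : a ≤ 1 / 2 := min_le_left _ _
  have ha2 : a < η := lt_of_le_of_lt (min_le_right _ _) (by linarith)
  set A : ℝ := η / 8 with hA
  have hA0 : 0 < A := by positivity
  obtain ⟨s, hs⟩ := hP a A ha0 ha1 hA0
  obtain ⟨δ₁, ρ₀, hδ₁, hρ₀, hreg⟩ := hT2 hG hB η a A Θ s hΘ hs
  have hkap : 0 < kap := by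
    unfold kap lam
    apply div_pos _ (by positivity)
    apply Real.log_pos
    have : (0:ℝ) ≤ Real.sqrt 5 := Real.sqrt_nonneg 5
    linarith
  set δ₀ : ℝ := min δ₁ (min (kap ^ 2 * A / 4) (A / 2)) with hδ
  have hδ0 : 0 < δ₀ := by positivity
  obtain ⟨p, B, hp⟩ := hPot a δ₀ ρ₀ ha0 ha1 hδ0 hρ₀
  have h1 : δ₀ ≤ kap ^ 2 * A / 4 := (min_le_right _ _).trans (min_le_left _ _)
  have h2 : δ₀ ≤ A / 2 := (min_le_right _ _).trans (min_le_right _ _)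
  have hT := hT1 hG η a A δ₀ ρ₀ Θ s p B hΘ hs hp h1 ha2 (by rw [hA] at h2 ⊢; linarith)
    (by linarith)
  refine ⟨Θ '' Omt a A s p, hT.2, ?_, ?_⟩
  · exact hreg δ₀ p B (min_le_left _ _) hp hT.1
  · exact hD hG η a A δ₀ ρ₀ Θ s p B hΘ hs hp h1 hT.1

end Pool.Agent.Helper24.AB
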