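import Pool.Agent.Helper24.AB.AN.Goals

/-! # Project AB (MP_1ef41b_an): common definitions, second part: `Φ_J`, `W_J`, coordinates `Ξ`,
and the interfaces between the modules GEO, PHI, BAR/WT and FM. -/

open MeasureTheory Set Filter Topology
open scoped ContDiff

noncomputable section

namespace Pool.Agent.Helper24.AB

/-- `u(t) = αe^{κt}` -/
def uf (α t : ℝ) : ℝ := α * Real.exp (kap * t)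
/-- `v(t) = α'e^{-κt}` -/
def vf (α' t : ℝ) : ℝ := α' * Real.exp (-(kap * t))
/-- `g = v² + l²` -/
def gf (α' l t : ℝ) : ℝ := vf α' t ^ 2 + l ^ 2
/-- `W = 2 + |u| + |v| + |l|` -/
def Wf (α α' l t : ℝ) : ℝ := 2 + |uf α t| + |vf α' t| + |l|
/-- `F = s²u² + 4A²(a²-σ²)g` -/
def Ff (a A : ℝ) (s : ℝ → ℝ) (α α' l : ℝ) (w : ℂ) : ℝ :=
  s w.re ^ 2 * uf α w.im ^ 2 + 4 * A ^ 2 * (a ^ 2 - w.re ^ 2) * gf α' l w.im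
/-- `H⁰ = Au + √F` -/
def H0f (a A : ℝ) (s : ℝ → ℝ) (α α' l : ℝ) (w : ℂ) : ℝ :=
  A * uf α w.im + Real.sqrt (Ff a A s α α' l w)
/-- `κ₁ = -(s'' + κ²s + κ²A)` -/
def kone (A : ℝ) (s : ℝ → ℝ) (x : ℝ) : ℝ :=
  -(deriv (deriv s) x + kap ^ 2 * s x + kap ^ 2 * A)
/-- `f(y) = ∫_{-1}^1 (1-τ²)e^{yτ}dτ` -/
def fy (y : ℝ) : ℝ := ∫ τ in (-1 : ℝ)..1, (1 - τ ^ 2) * Real.exp (y * τ)
/-- `Φ⁰ = -Au - ½log s - ½log(a²-σ²) - ½log f(2√F) - ½log(4√5 πA²)` -/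
def Phi0 (a A : ℝ) (s : ℝ → ℝ) (α α' l : ℝ) (w : ℂ) : ℝ :=
  -(A * uf α w.im) - Real.log (s w.re) / 2 - Real.log (a ^ 2 - w.re ^ 2) / 2 -
    Real.log (fy (2 * Real.sqrt (Ff a A s α α' l w))) / 2 -
    Real.log (4 * Real.sqrt 5 * Real.pi * A ^ 2) / 2
/-- `Φ = αp + Φ⁰` -/
def Phi (a A : ℝ) (s : ℝ → ℝ) (p : ℂ → ℝ) (α α' l : ℝ) (w : ℂ) : ℝ :=
  α * p w + Phi0 a A s α α' l w

/-- The frequencies which are not fixed by `Q^T`. -/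
abbrev JJ : Type := {J : Fin 3 → ℤ // J 0 ≠ 0 ∨ J 1 ≠ 0}
/-- `Φ_J` -/
def PhiJ (a A : ℝ) (s : ℝ → ℝ) (p : ℂ → ℝ) (J : Fin 3 → ℤ) : ℂ → ℝ :=
  Phi a A s p (alp J) (alp' J) (J 2)
/-- `W_J` -/
def WJ (J : Fin 3 → ℤ) (t : ℝ) : ℝ := Wf (alp J) (alp' J) (J 2) t

/-- The global coordinates: `ζ = (η₁,η₂,η₃,σ)`, `τ = (θ₁,θ₂,θ₃,t)`; `y₊ = A+√Ã η₁`, `y₋ = 2Aη₂`, `y₀ = 2Aη₃`. -/
def Xi (a A : ℝ) (s : ℝ → ℝ) (p : ℂ → ℝ) (q : (Fin 4 → ℝ) × (Fin 4 → ℝ)) : V4 :=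
  let ζ := q.1
  let τ := q.2
  let w : ℂ := ⟨ζ 3, τ 3⟩
  let Xp : ℝ := Real.exp (kap * τ 3) * (A + Real.sqrt (Atl a A s (ζ 3)) * ζ 0) - p w
  let Xq : ℝ := Real.exp (-(kap * τ 3)) * (2 * A * ζ 1)
  ![⟨ph * Xp + ph' * Xq, τ 0⟩, ⟨Xp + Xq, τ 1⟩, ⟨2 * A * ζ 2, τ 2⟩, w]

/-- The fibre `G_w ⊂ ℝ³`. -/
def Gw (a A : ℝ) (s : ℝ → ℝ) (p : ℂ → ℝ) (w : ℂ) : Set (Fin 3 → ℝ) :=
  {X | (![(X 0 : ℂ), (X 1 : ℂ), (X 2 : ℂ), w] : V4) ∈ Omt a A s p}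

/-- (Interface GEO → PHI) the inequality (3.2) (corrected constants). -/
def S_LH0 : Prop := ∀ (a A : ℝ) (s : ℝ → ℝ), IsProfile a A s → ∀ α α' l : ℝ,
  (α ≠ 0 ∨ α' ≠ 0 ∨ l ≠ 0) → ∀ w ∈ strip a,
    kap ^ 2 * A * max (-(uf α w.im)) 0 +
      (4 * s w.re ^ 3 * kone A s w.re * uf α w.im ^ 4 +
        18 / 5 * A ^ 4 * uf α w.im ^ 2 * gf α' l w.im + 48 * A ^ 4 * a ^ 2 * gf α' l w.im ^ 2) /
        (4 * Ff a A s α α' l w * Real.sqrt (Ff a A s α α' l w)) ≤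
      -lapC (H0f a A s α α' l) w

/-- (Interface PHI → BAR, WT) bounds for `V = ΔΦ⁰`. Constants depend on `a, A, s` only. -/
def S_PHI1 : Prop := ∀ (a A : ℝ) (s : ℝ → ℝ), IsProfile a A s → ∃ c C : ℝ, 0 < c ∧ 0 < C ∧
  ∀ α α' l : ℝ, α ≠ 0 → ∀ w ∈ strip a,
    1 ≤ lapC (Phi0 a A s α α' l) w ∧ 0 ≤ kone A s w.re ∧
    (α < 0 → 0 ≤ lapC (Phi0 a A s α α' l) w - kap ^ 2 * A / 4 * |uf α w.im| ∧
      c * Wf α α' l w.im - C ≤ lapC (Phi0 a A s α α' l) w - kap ^ 2 * A / 4 * |uf α w.im|) ∧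
    (0 < α → 19 / 20 * a ≤ |w.re| → c * Wf α α' l w.im - C ≤ lapC (Phi0 a A s α α' l) w) ∧
    (0 < α → ∀ R : ℝ, 1 ≤ R → R * (1 + uf α w.im) ≤ vf α' w.im ^ 2 →
      c * Real.sqrt R ≤ lapC (Phi0 a A s α α' l) w) ∧
    (0 < α → |w.re| ≤ 39 / 40 * a → 1 + gf α' l w.im ≤ uf α w.im →
      |lapC (Phi0 a A s α α' l) w - kone A s w.re * uf α w.im| ≤ C)

/-- (Interface PHI → BAR, WT) `Φ` is smooth and subharmonic, `ΔΦ = αΔp + V`. -/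
def S_PHI2 : Prop := ∀ (a A δ₀ ρ₀ : ℝ) (s : ℝ → ℝ) (p : ℂ → ℝ) (B : BlockData),
  IsProfile a A s → IsPotential a δ₀ ρ₀ p B → δ₀ ≤ kap ^ 2 * A / 4 → ∀ α α' l : ℝ, α ≠ 0 →
    ContDiffOn ℝ ∞ (Phi0 a A s α α' l) (strip a) ∧ ContDiffOn ℝ ∞ (Phi a A s p α α' l) (strip a) ∧
    ∀ w ∈ strip a, lapC (Phi a A s p α α' l) w = α * lapC p w + lapC (Phi0 a A s α α' l) w ∧
      0 ≤ lapC (Phi a A s p α α' l) w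

/-- (Interface PHI → FM) polynomial bounds, equivariance, and the meaning of `Φ`. -/
def S_PHI3 : Prop := ∀ (a A δ₀ ρ₀ : ℝ) (s : ℝ → ℝ) (p : ℂ → ℝ) (B : BlockData),
  IsProfile a A s → IsPotential a δ₀ ρ₀ p B →
    (∀ k : ℕ, 1 ≤ k → ∃ (C : ℝ) (N : ℕ), ∀ α α' l : ℝ, α ≠ 0 → ∀ w ∈ strip a,
      |dT^[k] (Phi a A s p α α' l) w| ≤ C * Wf α α' l w.im ^ N ∧
      ‖dT^[k] (dz (fun w => (Phi a A s p α α' l w : ℂ))) w‖ ≤ C * Wf α α' l w.im ^ N) ∧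
    (∀ J w, PhiJ a A s p J (w + 2 * Real.pi * Complex.I) = PhiJ a A s p (Jn J) w) ∧
    ∀ α α' l : ℝ, ∀ w ∈ strip a, Real.exp (-(2 * Phi a A s p α α' l w)) =
      ∫ X in Gw a A s p w, Real.exp (2 * (α * ((X 0 - ph' * X 1) / Real.sqrt 5) +
        α' * ((ph * X 1 - X 0) / Real.sqrt 5) + l * X 2))

/-- (Interface WT → FM) the weights exist. -/
def S_WTF : Prop := ∀ (a A : ℝ) (s : ℝ → ℝ), IsProfile a A s → ∃ ρ₀ : ℝ, 0 < ρ₀ ∧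
  ∀ (δ₀ : ℝ) (p : ℂ → ℝ) (B : BlockData), δ₀ ≤ kap ^ 2 * A / 4 → IsPotential a δ₀ ρ₀ p B →
    HasWeights a (fun J : JJ => PhiJ a A s p J.1) (fun J : JJ => WJ J.1)

end Pool.Agent.Helper24.AB
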