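import Mathlib

/-! # Project AB (MP_1ef41b_an): definitions of the final statement. -/

open MeasureTheory Set Filter Topology
open scoped ContDiff

noncomputable section

namespace Pool.Agent.Helper24.AB

variable {n : ℕ}

/-- `ρ` is a (real, `C^∞`) defining function of `Ω ⊂ ℂ^n`: it is `C^∞` on a neighbourhood `U` of the
closure of `Ω`, `Ω = {ρ < 0}` and `dρ ≠ 0` on the boundary of `Ω`. -/
def IsDefiningFunction (Ω : Set (Fin n → ℂ)) (ρ : (Fin n → ℂ) → ℝ) : Prop :=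
  ∃ U : Set (Fin n → ℂ), IsOpen U ∧ closure Ω ⊆ U ∧ ContDiffOn ℝ ∞ ρ U ∧
    Ω = {z | z ∈ U ∧ ρ z < 0} ∧ ∀ z ∈ frontier Ω, fderiv ℝ ρ z ≠ 0

/-- Four times the Levi form of `ρ` at `z`, evaluated at `ξ ∈ ℂ^n`:
`4 ∑ ρ_{j k̄} ξ_j conj ξ_k = D²ρ(ξ, ξ) + D²ρ(iξ, iξ)`. -/
def leviForm (ρ : (Fin n → ℂ) → ℝ) (z ξ : Fin n → ℂ) : ℝ :=
  (fderiv ℝ (fderiv ℝ ρ) z ξ) ξ + (fderiv ℝ (fderiv ℝ ρ) z (Complex.I • ξ)) (Complex.I • ξ)

/-- A bounded domain of `ℂ^n` with `C^∞` boundary which is (Levi) pseudoconvex: the Levi form of a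
defining function is nonnegative on the complex tangent vectors at every boundary point. -/
structure IsSmoothBoundedPseudoconvexDomain (Ω : Set (Fin n → ℂ)) : Prop where
  isOpen : IsOpen Ω
  isConnected : IsConnected Ω
  isBounded : Bornology.IsBounded Ω
  levi : ∃ ρ : (Fin n → ℂ) → ℝ, IsDefiningFunction Ω ρ ∧
    ∀ z ∈ frontier Ω, ∀ ξ : Fin n → ℂ, fderiv ℝ ρ z ξ = 0 → fderiv ℝ ρ z (Complex.I • ξ) = 0 →
      0 ≤ leviForm ρ z ξ

/-- Plurisubharmonicity of a continuous real function on an open set: the sub-mean value inequality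
on every closed complex disc contained in `Ω`. -/
def IsPshOn (Ω : Set (Fin n → ℂ)) (u : (Fin n → ℂ) → ℝ) : Prop :=
  ContinuousOn u Ω ∧ ∀ z ξ : Fin n → ℂ, (∀ s : ℂ, ‖s‖ ≤ 1 → z + s • ξ ∈ Ω) →
    u z ≤ (2 * Real.pi)⁻¹ * ∫ θ in (0 : ℝ)..(2 * Real.pi), u (z + Complex.exp (θ * Complex.I) • ξ)

/-- Property (DF1): for every `η ∈ (0,1)` there is a defining function `ρ` such that `-(-ρ)^η` is
plurisubharmonic on `Ω`. -/
def DF1 (Ω : Set (Fin n → ℂ)) : Prop :=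
  ∀ η : ℝ, 0 < η → η < 1 → ∃ ρ : (Fin n → ℂ) → ℝ, IsDefiningFunction Ω ρ ∧
    IsPshOn Ω (fun z => -((-ρ z) ^ η))

/-- `h` is a square integrable holomorphic function on `Ω`. -/
def IsBergmanFunction (Ω : Set (Fin n → ℂ)) (h : (Fin n → ℂ) → ℂ) : Prop :=
  DifferentiableOn ℂ h Ω ∧ IntegrableOn (fun z => ‖h z‖ ^ 2) Ω

/-- `g` is the Bergman projection of `f`, the orthogonal projection of `f ∈ L²(Ω)` onto the square
integrable holomorphic functions. -/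
def IsBergmanProjection (Ω : Set (Fin n → ℂ)) (f g : (Fin n → ℂ) → ℂ) : Prop :=
  IsBergmanFunction Ω g ∧ ∀ h, IsBergmanFunction Ω h →
    ∫ z in Ω, (f z - g z) * (starRingEnd ℂ) (h z) = 0

/-- The Bergman projection of `Ω` is globally regular: it maps `C^∞(closure Ω)` into itself. -/
def BergmanGloballyRegular (Ω : Set (Fin n → ℂ)) : Prop :=
  ∀ f : (Fin n → ℂ) → ℂ, ContDiffOn ℝ ∞ f (closure Ω) →
    ∃ g : (Fin n → ℂ) → ℂ, ContDiffOn ℝ ∞ g (closure Ω) ∧ IsBergmanProjection Ω f g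

/-- The final statement. -/
def S_FINAL : Prop :=
  ∃ Ω : Set (Fin 4 → ℂ), IsSmoothBoundedPseudoconvexDomain Ω ∧ BergmanGloballyRegular Ω ∧ ¬ DF1 Ω

end Pool.Agent.Helper24.AB
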